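import Pool.Agent.W254.PA.Transfer

set_option autoImplicit false
set_option linter.unusedSectionVars false

/-!
# Kernel vectors of small multiplicative complexity

Let `M` be a matrix with entries in a space `V` with the hyperplane property, `M v = 0`. If
`Z · v ⊆ D` for spaces `Z`, `D` of finite dimension, then for all `u` in the Zariski closure of the
line through `v` the coordinates of `M u` span a space of dimension at most
`dim D (dim D - 1) / dim Z`.
-/

namespace Pool.Agent.E8helper37.KS

open Module
open Pool.Agent.W254.PA (Hyp)

section core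

variable {k E : Type*} [Field k] [Field E] [Algebra k E]

/-- `u` lies in the Zariski closure, over the field `k`, of the line through `v`. -/
def InClosure {m : ℕ} (v : Fin m → E) (u : Fin m → k) : Prop :=
  ∀ p : MvPolynomial (Fin m) k, (∀ s : E, MvPolynomial.aeval (fun j => s * v j) p = 0) →
    MvPolynomial.eval u p = 0

theorem rank_le {V : Submodule k E} (hV : Hyp V) {n m : ℕ} (M : Matrix (Fin n) (Fin m) E)
    (hM : ∀ i j, M i j ∈ V) (v : Fin m → E) (hv : ∀ i, ∑ j, M i j * v j = 0)
    (Z D : Submodule k E) [FiniteDimensional k Z] [FiniteDimensional k D]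
    (hZD : ∀ z ∈ Z, ∀ j, z * v j ∈ D) (u : Fin m → k) (hu : InClosure v u) :
    finrank k Z * finrank k (Submodule.span k (Set.range (fun i => ∑ j, u j • M i j))) ≤
      finrank k D * (finrank k D - 1) := by
  classical
  -- coordinates of the entries
  set W : Submodule k E := Submodule.span k (Set.range fun ij : Fin n × Fin m => M ij.1 ij.2) with hW
  have : FiniteDimensional k W := FiniteDimensional.span_of_finite k (Set.finite_range _)
  let lam := Module.finBasis k W
  have hMW : ∀ i j, M i j ∈ W := fun i j => Submodule.subset_span ⟨(i, j), rfl⟩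
  let B : Fin n → Fin m → Fin (finrank k W) → k := fun i j b => lam.repr ⟨M i j, hMW i j⟩ b
  have hB : ∀ i j, M i j = ∑ b, B i j b • (lam b : E) := by
    intro i j
    have h1 := congrArg (fun z : W => (z : E)) (lam.sum_repr ⟨M i j, hMW i j⟩)
    change ((∑ b, B i j b • lam b : W) : E) = M i j at h1
    rw [← h1, AddSubmonoidClass.coe_finsetSum]
    rfl
  have hlam : LinearIndependent k (fun b => (lam b : E)) :=
    lam.linearIndependent.map' W.subtype W.ker_subtype
  -- independent coordinates of `M u`
  set g : Fin n → E := fun i => ∑ j, u j • M i j with hg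
  obtain ⟨κ, s, hs, hspan, hli⟩ := exists_linearIndependent' k g
  have : Fintype κ := Fintype.ofInjective s hs
  have hcard : finrank k (Submodule.span k (Set.range g)) = Fintype.card κ := by
    rw [← hspan, finrank_span_eq_card hli]
  -- their coordinates
  let F : κ → (Fin (finrank k W) → k) := fun a b => ∑ j, B (s a) j b * u j
  have hgF : ∀ a, g (s a) = ∑ b, F a b • (lam b : E) := by
    intro a
    change ∑ j, u j • M (s a) j = _
    simp only [F, Finset.sum_smul]
    rw [Finset.sum_comm]
    refine Finset.sum_congr rfl fun j _ => ?_
    rw [hB, Finset.smul_sum]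
    refine Finset.sum_congr rfl fun b _ => ?_
    rw [smul_smul, mul_comm]
  have hF : LinearIndependent k F := by
    rw [Fintype.linearIndependent_iff]
    intro γ hγ
    refine Fintype.linearIndependent_iff.1 hli γ ?_
    have h1 : ∀ a, γ a • (g ∘ s) a = ∑ b, (γ a * F a b) • (lam b : E) := by
      intro a
      rw [Function.comp_apply, hgF, Finset.smul_sum]
      refine Finset.sum_congr rfl fun b _ => ?_
      rw [smul_smul]
    rw [Finset.sum_congr rfl (fun a _ => h1 a), Finset.sum_comm]
    refine Finset.sum_eq_zero fun b _ => ?_
    rw [← Finset.sum_smul]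
    have h2 := congrFun hγ b
    rw [Finset.sum_apply] at h2
    simp only [Pi.smul_apply, smul_eq_mul, Pi.zero_apply] at h2
    rw [h2, zero_smul]
  obtain ⟨G', hG'⟩ := LinearMap.exists_leftInverse_of_injective (Fintype.linearCombination k F)
    (LinearMap.ker_eq_bot.2 hF.fintypeLinearCombination_injective)
  let G : Matrix κ (Fin (finrank k W)) k := LinearMap.toMatrix' G'
  have hG : ∀ a a', ∑ b, G a b * F a' b = if a = a' then 1 else 0 := by
    intro a a'
    have h1 : G' (F a') = Pi.single a' 1 := by
      have h2 := LinearMap.congr_fun hG' (Pi.single a' 1)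
      rw [LinearMap.comp_apply, LinearMap.id_apply, Fintype.linearCombination_apply_single,
        one_smul] at h2
      exact h2
    have h3 : G.mulVec (F a') a = (Pi.single a' (1 : k) : κ → k) a := by
      rw [← h1]
      change (LinearMap.toMatrix' G').mulVec (F a') a = _
      rw [LinearMap.toMatrix'_mulVec]
    rw [Matrix.mulVec, dotProduct] at h3
    rw [h3, Pi.single_apply]
  -- the determinant
  let P : MvPolynomial (Fin m) k := (Matrix.of fun a a' : κ => ∑ b, MvPolynomial.C (G a b) *
    ∑ j, MvPolynomial.C (B (s a') j b) * MvPolynomial.X j).det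
  let Nv : Fin (finrank k W) → κ → E := fun b a => ∑ j, algebraMap k E (B (s a) j b) * v j
  let Q : Matrix κ κ E := Matrix.of fun a a' => ∑ b, algebraMap k E (G a b) * Nv b a'
  have hPu : MvPolynomial.eval u P = 1 := by
    have h1 : MvPolynomial.eval u P = (1 : Matrix κ κ k).det := by
      change MvPolynomial.eval u (Matrix.det _) = _
      rw [RingHom.map_det]
      congr 1
      ext a a'
      rw [RingHom.mapMatrix_apply, Matrix.map_apply, Matrix.of_apply, map_sum, Matrix.one_apply,
        ← hG a a']
      refine Finset.sum_congr rfl fun b _ => ?_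
      rw [map_mul, MvPolynomial.eval_C, map_sum]
      congr 1
      refine Finset.sum_congr rfl fun j _ => ?_
      rw [map_mul, MvPolynomial.eval_C, MvPolynomial.eval_X]
    rw [h1, Matrix.det_one]
  have hPv : ∀ t : E, MvPolynomial.aeval (fun j => t * v j) P = t ^ Fintype.card κ * Q.det := by
    intro t
    rw [← Matrix.det_smul]
    change MvPolynomial.aeval (fun j => t * v j) (Matrix.det _) = _
    rw [AlgHom.map_det]
    congr 1
    ext a a'
    rw [AlgHom.mapMatrix_apply, Matrix.map_apply, Matrix.of_apply, map_sum, Matrix.smul_apply]
    change _ = t • ∑ b, algebraMap k E (G a b) * Nv b a'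
    rw [Finset.smul_sum]
    refine Finset.sum_congr rfl fun b _ => ?_
    have h1 : MvPolynomial.aeval (fun j => t * v j)
        (∑ j, MvPolynomial.C (B (s a') j b) * MvPolynomial.X j : MvPolynomial (Fin m) k) =
        t * Nv b a' := by
      rw [map_sum]
      change _ = t * ∑ j, algebraMap k E (B (s a') j b) * v j
      rw [Finset.mul_sum]
      refine Finset.sum_congr rfl fun j _ => ?_
      rw [map_mul, MvPolynomial.algHom_C, MvPolynomial.aeval_X]
      ring
    rw [map_mul, h1, MvPolynomial.algHom_C, smul_eq_mul]
    ring
  have hQ : Q.det ≠ 0 := by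
    intro h
    have h1 := hu P (fun t => by rw [hPv, h, mul_zero])
    rw [hPu] at h1
    exact one_ne_zero h1
  have hNv : ∀ ζ : κ → E, (∀ b, ∑ a, Nv b a * ζ a = 0) → ζ = 0 := by
    intro ζ hζ
    apply Matrix.eq_zero_of_mulVec_eq_zero hQ
    funext a
    rw [Matrix.mulVec, dotProduct, Pi.zero_apply]
    have h1 : ∀ a', Q a a' * ζ a' = ∑ b, algebraMap k E (G a b) * (Nv b a' * ζ a') := by
      intro a'
      change (∑ b, algebraMap k E (G a b) * Nv b a') * ζ a' = _
      rw [Finset.sum_mul]
      refine Finset.sum_congr rfl fun b _ => ?_
      ring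
    rw [Finset.sum_congr rfl (fun a' _ => h1 a'), Finset.sum_comm]
    refine Finset.sum_eq_zero fun b _ => ?_
    rw [← Finset.mul_sum, hζ, mul_zero]
  -- bases of `Z` and `D`
  let z := Module.finBasis k Z
  let x := Module.finBasis k D
  have hz : LinearIndependent k (fun l => (z l : E)) :=
    z.linearIndependent.map' Z.subtype Z.ker_subtype
  have hx : LinearIndependent k (fun l => (x l : E)) :=
    x.linearIndependent.map' D.subtype D.ker_subtype
  let c : Fin (finrank k Z) → Fin m → Fin (finrank k D) → k := fun l j r =>
    x.repr ⟨(z l : E) * v j, hZD _ (z l).2 j⟩ r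
  have hc : ∀ l j, (z l : E) * v j = ∑ r, c l j r • (x r : E) := by
    intro l j
    have h1 := congrArg (fun y : D => (y : E)) (x.sum_repr ⟨(z l : E) * v j, hZD _ (z l).2 j⟩)
    change ((∑ r, c l j r • x r : D) : E) = (z l : E) * v j at h1
    rw [← h1, AddSubmonoidClass.coe_finsetSum]
    rfl
  let e := (Fintype.equivFin (κ × Fin (finrank k Z))).symm
  have hmain := hV (finrank k D) (Fintype.card (κ × Fin (finrank k Z))) (fun r => (x r : E))
    (fun r q => ∑ j, c (e q).2 j r • M (s (e q).1) j) hx
    (fun r q => Submodule.sum_mem _ fun j _ => V.smul_mem _ (hM _ _))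
    (by
      intro q
      have h1 : ∀ r, (x r : E) * ∑ j, c (e q).2 j r • M (s (e q).1) j =
          ∑ j, M (s (e q).1) j * (c (e q).2 j r • (x r : E)) := by
        intro r
        rw [Finset.mul_sum]
        refine Finset.sum_congr rfl fun j _ => ?_
        rw [mul_smul_comm, mul_smul_comm, mul_comm]
      rw [Finset.sum_congr rfl (fun r _ => h1 r), Finset.sum_comm]
      have h2 : ∀ j, ∑ r, M (s (e q).1) j * (c (e q).2 j r • (x r : E)) =
          (z (e q).2 : E) * (M (s (e q).1) j * v j) := by
        intro j
        rw [← Finset.mul_sum, ← hc]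
        ring
      rw [Finset.sum_congr rfl (fun j _ => h2 j), ← Finset.mul_sum, hv, mul_zero])
    (by
      -- independence of the columns
      have hind : LinearIndependent k (fun (q : κ × Fin (finrank k Z)) (r : Fin (finrank k D)) =>
          ∑ j, c q.2 j r • M (s q.1) j) := by
        rw [Fintype.linearIndependent_iff]
        intro γ hγ
        -- the coefficients of the basis elements of `W`
        have h1 : ∀ r b, ∑ q : κ × Fin (finrank k Z), γ q * ∑ j, c q.2 j r * B (s q.1) j b = 0 := by
          intro r
          refine Fintype.linearIndependent_iff.1 hlam _ ?_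
          have h2 := congrFun hγ r
          rw [Finset.sum_apply] at h2
          simp only [Pi.smul_apply, Pi.zero_apply] at h2
          rw [← h2]
          simp only [Finset.sum_smul]
          rw [Finset.sum_comm]
          refine Finset.sum_congr rfl fun q _ => ?_
          rw [Finset.smul_sum]
          simp only [Finset.mul_sum, Finset.sum_smul]
          rw [Finset.sum_comm]
          refine Finset.sum_congr rfl fun j _ => ?_
          rw [hB (s q.1) j, Finset.smul_sum, Finset.smul_sum]
          refine Finset.sum_congr rfl fun b _ => ?_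
          rw [smul_smul, smul_smul, mul_assoc]
        have h3 : ∀ b, ∑ a, Nv b a * (∑ l, γ (a, l) • (z l : E)) = 0 := by
          intro b
          have h4 : ∀ a, Nv b a * (∑ l, γ (a, l) • (z l : E)) =
              ∑ l, ∑ r, (γ (a, l) * ∑ j, c l j r * B (s a) j b) • (x r : E) := by
            intro a
            rw [Finset.mul_sum]
            refine Finset.sum_congr rfl fun l _ => ?_
            simp only [Nv]
            rw [mul_smul_comm, Finset.sum_mul]
            have h5 : ∀ j, algebraMap k E (B (s a) j b) * v j * (z l : E) =
                ∑ r, (B (s a) j b * c l j r) • (x r : E) := by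
              intro j
              rw [mul_assoc, mul_comm (v j), hc, ← Algebra.smul_def, Finset.smul_sum]
              refine Finset.sum_congr rfl fun r _ => ?_
              rw [smul_smul]
            rw [Finset.sum_congr rfl (fun j _ => h5 j), Finset.sum_comm, Finset.smul_sum]
            refine Finset.sum_congr rfl fun r _ => ?_
            rw [← Finset.sum_smul, smul_smul]
            congr 2
            refine Finset.sum_congr rfl fun j _ => ?_
            rw [mul_comm]
          rw [Finset.sum_congr rfl (fun a _ => h4 a)]
          have h6 := Fintype.sum_prod_type (fun q : κ × Fin (finrank k Z) =>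
            ∑ r, (γ q * ∑ j, c q.2 j r * B (s q.1) j b) • (x r : E))
          rw [← h6, Finset.sum_comm]
          refine Finset.sum_eq_zero fun r _ => ?_
          rw [← Finset.sum_smul, h1, zero_smul]
        have h7 := hNv _ h3
        rintro ⟨a, l⟩
        exact Fintype.linearIndependent_iff.1 hz (fun l => γ (a, l)) (congrFun h7 a) l
      exact hind.comp e e.injective)
  rw [Fintype.card_prod, Fintype.card_fin] at hmain
  rw [hcard, mul_comm]
  exact hmain

end core

end Pool.Agent.E8helper37.KS
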