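import Mathlib

set_option autoImplicit false
set_option linter.unusedSectionVars false

/-!
# Rational vectors from algebraic vectors

`Λ` is a space of numbers for which Baker's theorem holds: elements which are linearly independent
over `ℚ` are linearly independent over the algebraic numbers.
-/

namespace Pool.Agent.E8helper37.KS

open Module

section rat

variable {E : Type*} [Field E] [CharZero E]

variable (Λ : Submodule ℚ E) (hB : ∀ (d : ℕ) (b : Fin d → E), (∀ k, b k ∈ Λ) →
  LinearIndependent ℚ b → LinearIndependent (algebraicClosure ℚ E) b)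

/-- a family of elements of `Λ` in coordinates -/
theorem coords {κ : Type*} [Finite κ] (f : κ → E) (hf : ∀ i, f i ∈ Λ) :
    ∃ (N : ℕ) (b : Fin N → E) (q : κ → Fin N → ℚ), (∀ r, b r ∈ Λ) ∧ LinearIndependent ℚ b ∧
      ∀ i, f i = ∑ r, (q i r : E) * b r := by
  set V0 : Submodule ℚ E := Submodule.span ℚ (Set.range f) with hV0
  have hV0Λ : V0 ≤ Λ := Submodule.span_le.2 (by rintro _ ⟨i, rfl⟩; exact hf i)
  have hfin : FiniteDimensional ℚ V0 := FiniteDimensional.span_of_finite ℚ (Set.finite_range f)
  let b := Module.finBasis ℚ V0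
  have hmV : ∀ i, f i ∈ V0 := fun i => Submodule.subset_span ⟨i, rfl⟩
  refine ⟨finrank ℚ V0, fun r => (b r : E), fun i r => b.repr ⟨f i, hmV i⟩ r,
    fun r => hV0Λ (b r).2, b.linearIndependent.map' V0.subtype (Submodule.ker_subtype V0), ?_⟩
  intro i
  have h1 := congrArg (fun z : V0 => (z : E)) (b.sum_repr ⟨f i, hmV i⟩)
  change ((∑ k, b.repr ⟨f i, hmV i⟩ k • b k : V0) : E) = f i at h1
  rw [← h1, AddSubmonoidClass.coe_finsetSum]
  refine Finset.sum_congr rfl fun k _ => ?_
  rw [SetLike.val_smul, Rat.smul_def]

include hB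

/-- An algebraic solution of linear equations with coefficients in `Λ` gives a rational one. -/
theorem exists_rat_kernel {κ : Type*} [Finite κ] {m : ℕ} (f : κ → Fin m → E) (hf : ∀ i j, f i j ∈ Λ)
    (u : Fin m → algebraicClosure ℚ E) (hu : u ≠ 0) (h : ∀ i, ∑ j, f i j * (u j : E) = 0) :
    ∃ q : Fin m → ℚ, q ≠ 0 ∧ ∀ i, ∑ j, f i j * (q j : E) = 0 := by
  classical
  obtain ⟨N, b, c, hb, hli, hc⟩ := coords Λ (fun ij : κ × Fin m => f ij.1 ij.2) (fun ij => hf _ _)
  have hliA := hB N b hb hli
  -- coordinates of `u`
  set S : Submodule ℚ (algebraicClosure ℚ E) := Submodule.span ℚ (Set.range u) with hS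
  have hfin : FiniteDimensional ℚ S := FiniteDimensional.span_of_finite ℚ (Set.finite_range u)
  let y := Module.finBasis ℚ S
  have huS : ∀ j, u j ∈ S := fun j => Submodule.subset_span ⟨j, rfl⟩
  let q : Fin m → Fin (finrank ℚ S) → ℚ := fun j r => y.repr ⟨u j, huS j⟩ r
  have hq : ∀ j, u j = ∑ r, (q j r : algebraicClosure ℚ E) * (y r : algebraicClosure ℚ E) := by
    intro j
    have h1 := congrArg (fun z : S => (z : algebraicClosure ℚ E)) (y.sum_repr ⟨u j, huS j⟩)
    change ((∑ k, y.repr ⟨u j, huS j⟩ k • y k : S) : algebraicClosure ℚ E) = u j at h1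
    rw [← h1, AddSubmonoidClass.coe_finsetSum]
    refine Finset.sum_congr rfl fun k _ => ?_
    rw [SetLike.val_smul, Rat.smul_def]
  have hy : LinearIndependent ℚ (fun r => (y r : algebraicClosure ℚ E)) :=
    y.linearIndependent.map' S.subtype (Submodule.ker_subtype S)
  -- the equations in coordinates
  have h1 : ∀ i r, ∑ j, (c (i, j) r : algebraicClosure ℚ E) * u j = 0 := by
    intro i
    refine Fintype.linearIndependent_iff.1 hliA _ ?_
    rw [← h i]
    have h2 : ∀ r, (∑ j, (c (i, j) r : algebraicClosure ℚ E) * u j) • b r =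
        ∑ j, (c (i, j) r : E) * b r * (u j : E) := by
      intro r
      rw [Finset.sum_smul]
      refine Finset.sum_congr rfl fun j _ => ?_
      rw [Algebra.smul_def]
      change (((c (i, j) r : algebraicClosure ℚ E) * u j : algebraicClosure ℚ E) : E) * _ = _
      push_cast
      ring
    rw [Finset.sum_congr rfl (fun r _ => h2 r), Finset.sum_comm]
    refine Finset.sum_congr rfl fun j _ => ?_
    rw [← Finset.sum_mul, ← hc (i, j)]
  have h3 : ∀ i r r', ∑ j, c (i, j) r * q j r' = 0 := by
    intro i r
    refine Fintype.linearIndependent_iff.1 hy _ ?_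
    rw [← h1 i r]
    have h4 : ∀ r', (∑ j, c (i, j) r * q j r') • (y r' : algebraicClosure ℚ E) =
        ∑ j, (c (i, j) r : algebraicClosure ℚ E) * ((q j r' : algebraicClosure ℚ E) *
          (y r' : algebraicClosure ℚ E)) := by
      intro r'
      rw [Finset.sum_smul]
      refine Finset.sum_congr rfl fun j _ => ?_
      rw [Rat.smul_def]
      push_cast
      ring
    rw [Finset.sum_congr rfl (fun r' _ => h4 r'), Finset.sum_comm]
    refine Finset.sum_congr rfl fun j _ => ?_
    rw [← Finset.mul_sum, ← hq j]
  obtain ⟨j0, hj0⟩ : ∃ j, u j ≠ 0 := by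
    by_contra hcon
    push Not at hcon
    exact hu (funext hcon)
  obtain ⟨r0, hr0⟩ : ∃ r, q j0 r ≠ 0 := by
    by_contra hcon
    push Not at hcon
    apply hj0
    rw [hq j0]
    refine Finset.sum_eq_zero fun r _ => ?_
    rw [hcon r, Rat.cast_zero, zero_mul]
  refine ⟨fun j => q j r0, fun hz => hr0 (congrFun hz j0), fun i => ?_⟩
  have h5 : ∀ j, f i j * (q j r0 : E) = ∑ r, ((c (i, j) r * q j r0 : ℚ) : E) * b r := by
    intro j
    have h6 := hc (i, j)
    change f i j = _ at h6
    rw [h6, Finset.sum_mul]
    refine Finset.sum_congr rfl fun r _ => ?_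
    push_cast
    ring
  rw [Finset.sum_congr rfl (fun j _ => h5 j), Finset.sum_comm]
  refine Finset.sum_eq_zero fun r _ => ?_
  rw [← Finset.sum_mul, ← Rat.cast_sum, h3 i r r0, Rat.cast_zero, zero_mul]

/-- If the coordinates of `M u` span a space of small dimension over the algebraic numbers, then
they are linearly dependent over `ℚ`. -/
theorem exists_rat_relation {n m : ℕ} (M : Matrix (Fin n) (Fin m) E) (hM : ∀ i j, M i j ∈ Λ)
    (K : Type*) [Field K] [NumberField K] (ι : K →+* algebraicClosure ℚ E) (u : Fin m → K)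
    (hn : finrank (algebraicClosure ℚ E) (Submodule.span (algebraicClosure ℚ E)
      (Set.range fun i => ∑ j, ι (u j) • M i j)) * finrank ℚ K < n) :
    ∃ w : Fin n → ℚ, w ≠ 0 ∧ ∑ i, (w i : E) * ∑ j, M i j * (ι (u j) : E) = 0 := by
  classical
  obtain ⟨N, b, c, hb, hli, hc⟩ := coords Λ (fun ij : Fin n × Fin m => M ij.1 ij.2)
    (fun ij => hM _ _)
  have hliA := hB N b hb hli
  let R : Fin n → (Fin N → K) := fun i r => ∑ j, (c (i, j) r : K) * u j
  have hMR : ∀ i, ∑ j, M i j * (ι (u j) : E) = ∑ r, (ι (R i r) : E) * b r := by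
    intro i
    have h1 : ∀ r, (ι (R i r) : E) * b r = ∑ j, (c (i, j) r : E) * b r * (ι (u j) : E) := by
      intro r
      simp only [R]
      rw [map_sum, AddSubmonoidClass.coe_finsetSum, Finset.sum_mul]
      refine Finset.sum_congr rfl fun j _ => ?_
      rw [map_mul, map_ratCast]
      push_cast
      ring
    rw [Finset.sum_congr rfl (fun r _ => h1 r), Finset.sum_comm]
    refine Finset.sum_congr rfl fun j _ => ?_
    rw [← Finset.sum_mul, ← hc (i, j)]
  -- the dimension over `K`
  have hdim : finrank K (Submodule.span K (Set.range R)) ≤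
      finrank (algebraicClosure ℚ E) (Submodule.span (algebraicClosure ℚ E)
        (Set.range fun i => ∑ j, ι (u j) • M i j)) := by
    obtain ⟨κ, s, hs, hspan, hliK⟩ := exists_linearIndependent' K R
    have : Fintype κ := Fintype.ofInjective s hs
    rw [← hspan, finrank_span_eq_card hliK]
    obtain ⟨G', hG'⟩ := LinearMap.exists_leftInverse_of_injective
      (Fintype.linearCombination K (R ∘ s))
      (LinearMap.ker_eq_bot.2 hliK.fintypeLinearCombination_injective)
    let G : Matrix κ (Fin N) K := LinearMap.toMatrix' G'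
    have hG : ∀ a a', ∑ r, G a r * R (s a') r = if a = a' then 1 else 0 := by
      intro a a'
      have h1 : G' (R (s a')) = Pi.single a' 1 := by
        have h2 := LinearMap.congr_fun hG' (Pi.single a' 1)
        rw [LinearMap.comp_apply, LinearMap.id_apply, Fintype.linearCombination_apply_single,
          one_smul] at h2
        exact h2
      have h3 : G.mulVec (R (s a')) a = (Pi.single a' (1 : K) : κ → K) a := by
        rw [← h1]
        change (LinearMap.toMatrix' G').mulVec (R (s a')) a = _
        rw [LinearMap.toMatrix'_mulVec]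
      rw [Matrix.mulVec, dotProduct] at h3
      rw [h3, Pi.single_apply]
    have hind : LinearIndependent (algebraicClosure ℚ E)
        (fun a => ∑ j, ι (u j) • M (s a) j) := by
      rw [Fintype.linearIndependent_iff]
      intro γ hγ
      have h1 : ∀ r, ∑ a, γ a * ι (R (s a) r) = 0 := by
        refine Fintype.linearIndependent_iff.1 hliA _ ?_
        rw [← hγ]
        have h2 : ∀ a, γ a • ∑ j, ι (u j) • M (s a) j = ∑ r, (γ a * ι (R (s a) r)) • b r := by
          intro a
          have h3 : ∑ j, ι (u j) • M (s a) j = ∑ r, (ι (R (s a) r) : E) * b r := by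
            rw [← hMR]
            refine Finset.sum_congr rfl fun j _ => ?_
            rw [Algebra.smul_def, mul_comm]
            rfl
          rw [h3, Finset.smul_sum]
          refine Finset.sum_congr rfl fun r _ => ?_
          rw [Algebra.smul_def, Algebra.smul_def, map_mul, mul_assoc]
          rfl
        rw [Finset.sum_congr rfl (fun a _ => h2 a), Finset.sum_comm]
        refine Finset.sum_congr rfl fun r _ => ?_
        rw [Finset.sum_smul]
      intro a'
      have h4 : ∑ a, γ a * ι (∑ r, G a' r * R (s a) r) = 0 := by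
        have h5 : ∀ a, γ a * ι (∑ r, G a' r * R (s a) r) =
            ∑ r, ι (G a' r) * (γ a * ι (R (s a) r)) := by
          intro a
          rw [map_sum, Finset.mul_sum]
          refine Finset.sum_congr rfl fun r _ => ?_
          rw [map_mul]
          ring
        rw [Finset.sum_congr rfl (fun a _ => h5 a), Finset.sum_comm]
        refine Finset.sum_eq_zero fun r _ => ?_
        rw [← Finset.mul_sum, h1, mul_zero]
      have h6 : ∀ a, γ a * ι (∑ r, G a' r * R (s a) r) = if a' = a then γ a else 0 := by
        intro a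
        rw [hG]
        split_ifs
        · rw [map_one, mul_one]
        · rw [map_zero, mul_zero]
      rw [Finset.sum_congr rfl (fun a _ => h6 a), Finset.sum_ite_eq,
        if_pos (Finset.mem_univ _)] at h4
      exact h4
    have hfin : FiniteDimensional (algebraicClosure ℚ E) (Submodule.span (algebraicClosure ℚ E)
        (Set.range fun i => ∑ j, ι (u j) • M i j)) :=
      FiniteDimensional.span_of_finite _ (Set.finite_range _)
    rw [← finrank_span_eq_card hind]
    apply Submodule.finrank_mono
    apply Submodule.span_mono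
    rintro _ ⟨a, rfl⟩
    exact ⟨s a, rfl⟩
  -- the linear map
  have hfinK : FiniteDimensional K (Submodule.span K (Set.range R)) :=
    FiniteDimensional.span_of_finite _ (Set.finite_range _)
  have hfinQ : Module.Finite ℚ (Submodule.span K (Set.range R)) := Module.Finite.trans K _
  let T : (Fin n → ℚ) →ₗ[ℚ] Submodule.span K (Set.range R) :=
    Fintype.linearCombination ℚ (fun i => (⟨R i, Submodule.subset_span ⟨i, rfl⟩⟩ :
      Submodule.span K (Set.range R)))
  have hlt : finrank ℚ (Submodule.span K (Set.range R)) < finrank ℚ (Fin n → ℚ) := by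
    rw [← Module.finrank_mul_finrank ℚ K, finrank_fin_fun, mul_comm]
    exact lt_of_le_of_lt (Nat.mul_le_mul_right _ hdim) hn
  have hker : LinearMap.ker T ≠ ⊥ := LinearMap.ker_ne_bot_of_finrank_lt hlt
  obtain ⟨w, hw, hw0⟩ := Submodule.exists_mem_ne_zero_of_ne_bot hker
  refine ⟨w, hw0, ?_⟩
  have h1 : ∀ r, ∑ i, (w i : K) * R i r = 0 := by
    intro r
    have h2 := congrArg (fun z : Submodule.span K (Set.range R) => (z : Fin N → K) r)
      (LinearMap.mem_ker.1 hw)
    simp only [T, Fintype.linearCombination_apply] at h2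
    rw [AddSubmonoidClass.coe_finsetSum, Finset.sum_apply] at h2
    rw [ZeroMemClass.coe_zero, Pi.zero_apply] at h2
    rw [← h2]
    refine Finset.sum_congr rfl fun i _ => ?_
    change (w i : K) * R i r = w i • R i r
    rw [Rat.smul_def]
  have h3 : ∀ i, (w i : E) * ∑ j, M i j * (ι (u j) : E) =
      ∑ r, (ι ((w i : K) * R i r) : E) * b r := by
    intro i
    rw [hMR, Finset.mul_sum]
    refine Finset.sum_congr rfl fun r _ => ?_
    rw [map_mul, map_ratCast]
    push_cast
    ring
  rw [Finset.sum_congr rfl (fun i _ => h3 i), Finset.sum_comm]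
  refine Finset.sum_eq_zero fun r _ => ?_
  rw [← Finset.sum_mul, ← AddSubmonoidClass.coe_finsetSum, ← map_sum, h1, map_zero,
    ZeroMemClass.coe_zero, zero_mul]

end rat

end Pool.Agent.E8helper37.KS
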