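import Pool.Agent.E8helper37.KS.Core
import Pool.Agent.E8helper37.KS.Rat

set_option autoImplicit false
set_option linter.unusedSectionVars false

/-!
# Kernel vectors with coordinates polynomials of small degree
-/

namespace Pool.Agent.E8helper37.KS

open Module Polynomial
open Pool.Agent.W254.PA (Hyp)

section hom

variable {k E : Type*} [Field k] [Field E] [Algebra k E]

theorem inClosure_of_hom {R : Type*} [CommRing R] [Algebra k R] (φ : R →ₐ[k] E)
    (hφ : Function.Injective φ) (ψ : R →ₐ[k] k) {m : ℕ} (P : Fin m → R) :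
    InClosure (fun j => φ (P j)) (fun j => ψ (P j)) := by
  intro p hp
  have h1 := hp 1
  simp only [one_mul] at h1
  rw [← MvPolynomial.comp_aeval_apply] at h1
  have h3 : MvPolynomial.aeval P p = 0 := hφ (h1.trans (map_zero φ).symm)
  have h4 := MvPolynomial.comp_aeval_apply (f := P) ψ p
  rw [h3, map_zero, MvPolynomial.aeval_eq_eval] at h4
  exact h4.symm

theorem hom_rank_le {V : Submodule k E} (hV : Hyp V) {n m : ℕ} (M : Matrix (Fin n) (Fin m) E)
    (hM : ∀ i j, M i j ∈ V) {R : Type*} [CommRing R] [Algebra k R] (φ : R →ₐ[k] E)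
    (hφ : Function.Injective φ) (ψ : R →ₐ[k] k) (P : Fin m → R)
    (hv : ∀ i, ∑ j, M i j * φ (P j) = 0) (Z D : Submodule k R) [FiniteDimensional k Z]
    [FiniteDimensional k D] (hZD : ∀ z ∈ Z, ∀ j, z * P j ∈ D) :
    finrank k Z * finrank k (Submodule.span k (Set.range (fun i => ∑ j, ψ (P j) • M i j))) ≤
      finrank k D * (finrank k D - 1) := by
  have h1 := rank_le hV M hM (fun j => φ (P j)) hv (Z.map φ.toLinearMap) (D.map φ.toLinearMap)
    (by
      rintro _ ⟨z, hz, rfl⟩ j
      exact ⟨z * P j, hZD z hz j, map_mul φ _ _⟩) (fun j => ψ (P j))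
      (inClosure_of_hom φ hφ ψ P)
  have h2 : ∀ S : Submodule k R, finrank k (S.map φ.toLinearMap) = finrank k S := fun S =>
    (LinearEquiv.finrank_eq (Submodule.equivMapOfInjective φ.toLinearMap hφ S)).symm
  rw [h2, h2] at h1
  exact h1

/-- one variable -/
theorem poly_rank_le {V : Submodule k E} (hV : Hyp V) {n m : ℕ} (M : Matrix (Fin n) (Fin m) E)
    (hM : ∀ i j, M i j ∈ V) (t : E) (ht : Transcendental k t) (e : ℕ) (he : 1 ≤ e)
    (P : Fin m → k[X]) (hP : ∀ j, (P j).natDegree ≤ e)
    (hv : ∀ i, ∑ j, M i j * aeval t (P j) = 0) (c : k) :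
    finrank k (Submodule.span k (Set.range (fun i => ∑ j, (P j).eval c • M i j))) ≤ 4 * e - 2 := by
  have hfin : ∀ N : ℕ, FiniteDimensional k (degreeLT k N) := fun N =>
    Module.Finite.equiv (degreeLTEquiv k N).symm
  have hrank : ∀ N : ℕ, finrank k (degreeLT k N) = N := fun N => by
    rw [LinearEquiv.finrank_eq (degreeLTEquiv k N), finrank_fin_fun]
  have h1 := hom_rank_le hV M hM (aeval t) (transcendental_iff_injective.1 ht) (aeval c) P hv
    (degreeLT k e) (degreeLT k (2 * e)) (by
      intro z hz j
      rw [mem_degreeLT] at hz ⊢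
      by_cases h0 : z * P j = 0
      · rw [h0, degree_zero]
        exact WithBot.bot_lt_coe _
      · have hz0 : z ≠ 0 := left_ne_zero_of_mul h0
        rw [degree_eq_natDegree h0, natDegree_mul hz0 (right_ne_zero_of_mul h0)]
        rw [degree_eq_natDegree hz0] at hz
        have h2 : z.natDegree < e := by exact_mod_cast hz
        have h3 := hP j
        exact_mod_cast (by omega : z.natDegree + (P j).natDegree < 2 * e))
  rw [hrank, hrank] at h1
  have h2 : (fun i => ∑ j, (aeval c) (P j) • M i j) = fun i => ∑ j, (P j).eval c • M i j := by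
    funext i
    refine Finset.sum_congr rfl fun j _ => ?_
    rw [coe_aeval_eq_eval]
  rw [h2] at h1
  have h3 : e * finrank k (Submodule.span k (Set.range (fun i => ∑ j, (P j).eval c • M i j))) ≤
      e * (2 * (2 * e - 1)) := by
    refine h1.trans (le_of_eq ?_)
    ring
  have h4 := Nat.le_of_mul_le_mul_left h3 he
  omega

/-- the monomials with exponents smaller than `N` -/
noncomputable def mon (k : Type*) [Field k] (r N : ℕ) : (Fin r → Fin N) → MvPolynomial (Fin r) k :=
  fun α => MvPolynomial.monomial (Finsupp.equivFunOnFinite.symm (fun i => (α i : ℕ))) 1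

/-- the polynomials with partial degrees smaller than `N` -/
noncomputable def box (k : Type*) [Field k] (r N : ℕ) : Submodule k (MvPolynomial (Fin r) k) :=
  Submodule.span k (Set.range (mon k r N))

theorem mon_li (r N : ℕ) : LinearIndependent k (mon k r N) := by
  have h1 := (MvPolynomial.basisMonomials (Fin r) k).linearIndependent
  rw [MvPolynomial.coe_basisMonomials] at h1
  refine h1.comp (fun α : Fin r → Fin N => Finsupp.equivFunOnFinite.symm (fun i => (α i : ℕ))) ?_
  intro α β h
  have h2 := Finsupp.equivFunOnFinite.symm.injective h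
  funext i
  exact Fin.ext (congrFun h2 i)

instance box_fin (r N : ℕ) : FiniteDimensional k (box k r N) :=
  FiniteDimensional.span_of_finite k (Set.finite_range _)

theorem finrank_box (r N : ℕ) : finrank k (box k r N) = N ^ r := by
  rw [box, finrank_span_eq_card (mon_li r N)]
  simp

theorem mem_box {r N : ℕ} (f : MvPolynomial (Fin r) k) (hf : ∀ i, f.degreeOf i < N) :
    f ∈ box k r N := by
  rw [MvPolynomial.as_sum f]
  refine Submodule.sum_mem _ fun d hd => ?_
  have h1 : ∀ i, d i < N := fun i => lt_of_le_of_lt (MvPolynomial.monomial_le_degreeOf i hd) (hf i)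
  have h2 : MvPolynomial.monomial d (MvPolynomial.coeff d f) =
      MvPolynomial.coeff d f • mon k r N (fun i => ⟨d i, h1 i⟩) := by
    have h3 : Finsupp.equivFunOnFinite.symm (fun i => ((⟨d i, h1 i⟩ : Fin N) : ℕ)) = d := by
      ext i
      rfl
    rw [mon, h3, MvPolynomial.smul_monomial, smul_eq_mul, mul_one]
  rw [h2]
  exact Submodule.smul_mem _ _ (Submodule.subset_span ⟨_, rfl⟩)

theorem degreeOf_of_mem_box {r N : ℕ} (hN : 1 ≤ N) {f : MvPolynomial (Fin r) k}
    (hf : f ∈ box k r N) (i : Fin r) : f.degreeOf i < N := by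
  induction hf using Submodule.span_induction with
  | mem f h =>
    obtain ⟨α, rfl⟩ := h
    rw [mon, MvPolynomial.degreeOf_monomial_eq _ _ one_ne_zero]
    exact (α i).2
  | zero => rw [MvPolynomial.degreeOf_zero]; omega
  | add f g _ _ hf hg => exact lt_of_le_of_lt (MvPolynomial.degreeOf_add_le i f g) (max_lt hf hg)
  | smul a f _ hf =>
    rw [MvPolynomial.smul_eq_C_mul]
    exact lt_of_le_of_lt (MvPolynomial.degreeOf_C_mul_le f i a) hf

/-- several variables -/
theorem mvpoly_rank_le {V : Submodule k E} (hV : Hyp V) {n m : ℕ} (M : Matrix (Fin n) (Fin m) E)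
    (hM : ∀ i j, M i j ∈ V) {r : ℕ} (t : Fin r → E) (ht : AlgebraicIndependent k t) (e : ℕ)
    (he : 1 ≤ e) (P : Fin m → MvPolynomial (Fin r) k) (hP : ∀ j i, (P j).degreeOf i ≤ e)
    (hv : ∀ i, ∑ j, M i j * MvPolynomial.aeval t (P j) = 0) (c : Fin r → k) :
    finrank k (Submodule.span k (Set.range (fun i => ∑ j, MvPolynomial.eval c (P j) • M i j))) ≤
      2 ^ r * ((2 * e) ^ r - 1) := by
  have h1 := hom_rank_le hV M hM (MvPolynomial.aeval t) ht (MvPolynomial.aeval c) P hv
    (box k r e) (box k r (2 * e)) (by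
      intro z hz j
      apply mem_box
      intro i
      have h2 := degreeOf_of_mem_box he hz i
      have h3 := MvPolynomial.degreeOf_mul_le i z (P j)
      have h4 := hP j i
      omega)
  rw [finrank_box, finrank_box] at h1
  have h2 : (fun i => ∑ j, (MvPolynomial.aeval c) (P j) • M i j) =
      fun i => ∑ j, MvPolynomial.eval c (P j) • M i j := by
    funext i
    refine Finset.sum_congr rfl fun j _ => ?_
    rw [MvPolynomial.aeval_eq_eval]
  rw [h2] at h1
  refine Nat.le_of_mul_le_mul_left (h1.trans (le_of_eq ?_)) (pow_pos (by omega : 0 < e) r)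
  rw [mul_pow]
  ring

/-- the coordinates in the space generated by `d` independent numbers -/
theorem span_rank_le {V : Submodule k E} (hV : Hyp V) {n m : ℕ} (M : Matrix (Fin n) (Fin m) E)
    (hM : ∀ i j, M i j ∈ V) {d : ℕ} (x : Fin d → E) (hx : LinearIndependent k x)
    (a : Fin d → Fin m → k) (hv : ∀ i, ∑ j, M i j * ∑ l, a l j • x l = 0) (l : Fin d) :
    finrank k (Submodule.span k (Set.range (fun i => ∑ j, a l j • M i j))) ≤ d * (d - 1) := by
  classical
  let g : Fin n → (Fin d → E) := fun i l => ∑ j, a l j • M i j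
  have h1 : finrank k (Submodule.span k (Set.range g)) ≤ d * (d - 1) := by
    obtain ⟨κ, s, hs, hspan, hli⟩ := exists_linearIndependent' k g
    have : Fintype κ := Fintype.ofInjective s hs
    rw [← hspan, finrank_span_eq_card hli]
    let e := (Fintype.equivFin κ).symm
    refine hV d (Fintype.card κ) x (fun l q => g (s (e q)) l) hx
      (fun l q => Submodule.sum_mem _ fun j _ => V.smul_mem _ (hM _ _)) (fun q => ?_)
      (hli.comp e e.injective)
    rw [← hv (s (e q))]
    simp only [g, Finset.mul_sum]
    rw [Finset.sum_comm]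
    refine Finset.sum_congr rfl fun j _ => Finset.sum_congr rfl fun l _ => ?_
    rw [mul_smul_comm, mul_smul_comm, mul_comm]
  have : FiniteDimensional k (Submodule.span k (Set.range g)) :=
    FiniteDimensional.span_of_finite _ (Set.finite_range _)
  have h2 : Submodule.span k (Set.range (fun i => ∑ j, a l j • M i j)) =
      (Submodule.span k (Set.range g)).map (LinearMap.proj l : (Fin d → E) →ₗ[k] E) := by
    rw [Submodule.map_span, ← Set.range_comp]
    rfl
  rw [h2]
  exact (Submodule.finrank_map_le _ _).trans h1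

/-- polynomials with a common transcendental root -/
theorem common_root {V : Submodule k E} (hV : Hyp V) (n e : ℕ) (he : 1 ≤ e) (F : Fin n → E[X])
    (hF : ∀ i, (F i).natDegree ≤ e) (hFV : ∀ i j, (F i).coeff j ∈ V) (t : E)
    (ht : Transcendental k t) (hroot : ∀ i, (F i).eval t = 0) (c : k) :
    finrank k (Submodule.span k (Set.range (fun i => (F i).eval (algebraMap k E c)))) ≤
      4 * e - 2 := by
  have h1 := poly_rank_le hV (Matrix.of fun (i : Fin n) (j : Fin (e + 1)) => (F i).coeff j)
    (fun i j => hFV i j) t ht e he (fun j => X ^ (j : ℕ)) (fun j => by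
      rw [natDegree_X_pow]
      omega) (fun i => by
      rw [← hroot i, eval_eq_sum_range' (Nat.lt_succ_of_le (hF i)), Finset.sum_range]
      refine Finset.sum_congr rfl fun j _ => ?_
      rw [map_pow, aeval_X]
      rfl) c
  have h2 : (fun i => ∑ j : Fin (e + 1), ((X : k[X]) ^ (j : ℕ)).eval c •
      (Matrix.of fun (i : Fin n) (j : Fin (e + 1)) => (F i).coeff j) i j) =
      fun i => (F i).eval (algebraMap k E c) := by
    funext i
    rw [eval_eq_sum_range' (Nat.lt_succ_of_le (hF i)), Finset.sum_range]
    refine Finset.sum_congr rfl fun j _ => ?_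
    rw [eval_pow, eval_X, Algebra.smul_def, map_pow, mul_comm]
    rfl
  rw [h2] at h1
  exact h1

end hom

end Pool.Agent.E8helper37.KS
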