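import Pool.Agent.E8helper37.KS.Poly

set_option autoImplicit false
set_option linter.unusedSectionVars false

/-!
# Rational zeros of matrices of logarithms
-/

namespace Pool.Agent.E8helper37.KS

open Module Polynomial
open Pool.Agent.W254.PA (Hyp)

section zero

variable {E : Type*} [Field E] [CharZero E]

variable (Λ : Submodule ℚ E) (hB : ∀ (d : ℕ) (b : Fin d → E), (∀ k, b k ∈ Λ) →
  LinearIndependent ℚ b → LinearIndependent (algebraicClosure ℚ E) b)

/-- the restriction of an embedding of a number field to the algebraic numbers -/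
noncomputable def restr {K : Type*} [Field K] [NumberField K] (ι : K →+* E) :
    K →+* algebraicClosure ℚ E :=
  { toFun := fun k => ⟨ι k, mem_algebraicClosure_iff.2
      ((Algebra.IsAlgebraic.isAlgebraic (R := ℚ) k).algHom (RingHom.toRatAlgHom ι))⟩
    map_one' := Subtype.ext (map_one ι)
    map_mul' := fun x y => Subtype.ext (map_mul ι x y)
    map_zero' := Subtype.ext (map_zero ι)
    map_add' := fun x y => Subtype.ext (map_add ι x y) }

theorem algebraicIndependent_closure {r : ℕ} {t : Fin r → E} (ht : AlgebraicIndependent ℚ t) :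
    AlgebraicIndependent (algebraicClosure ℚ E) t := by
  have h2 : @Algebra.IsAlgebraic ℚ (algebraicClosure ℚ E) _ _ (algebraicClosure ℚ E).algebra' :=
    algebraicClosure.isAlgebraic ℚ E
  have h3 : Algebra.IsAlgebraic ℚ (algebraicClosure ℚ E) := by
    convert h2
    exact Subsingleton.elim _ _
  exact ht.extendScalars _

theorem coe_restr {K : Type*} [Field K] [NumberField K] (ι : K →+* E) (x : K) :
    ((restr ι x : algebraicClosure ℚ E) : E) = ι x := rfl

theorem transcendental_closure {t : E} (ht : Transcendental ℚ t) :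
    Transcendental (algebraicClosure ℚ E) t := by
  have h2 : @Algebra.IsAlgebraic ℚ (algebraicClosure ℚ E) _ _ (algebraicClosure ℚ E).algebra' :=
    algebraicClosure.isAlgebraic ℚ E
  have h3 : Algebra.IsAlgebraic ℚ (algebraicClosure ℚ E) := by
    convert h2
    exact Subsingleton.elim _ _
  intro h
  apply ht
  exact h.restrictScalars ℚ

include hB

theorem zero_of_rank {n m : ℕ} (M : Matrix (Fin n) (Fin m) E) (hM : ∀ i j, M i j ∈ Λ)
    (K : Type*) [Field K] [NumberField K] (ι : K →+* algebraicClosure ℚ E) (u : Fin m → K)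
    (hu : u ≠ 0)
    (hn : finrank (algebraicClosure ℚ E) (Submodule.span (algebraicClosure ℚ E)
      (Set.range fun i => ∑ j, ι (u j) • M i j)) * finrank ℚ K < n) :
    ∃ (w : Fin n → ℚ) (q : Fin m → ℚ), w ≠ 0 ∧ q ≠ 0 ∧
      ∑ i, ∑ j, (w i : E) * M i j * (q j : E) = 0 := by
  obtain ⟨w, hw, h1⟩ := exists_rat_relation Λ hB M hM K ι u hn
  obtain ⟨q, hq, h2⟩ := exists_rat_kernel Λ hB (κ := Unit)
    (fun _ j => ∑ i, (w i : E) * M i j) (fun _ j => Submodule.sum_mem _ fun i _ => by
      rw [← Rat.smul_def]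
      exact Λ.smul_mem _ (hM i j)) (fun j => ι (u j)) (by
      intro h
      apply hu
      funext j
      exact (map_eq_zero_iff ι ι.injective).1 (congrFun h j)) (fun _ => by
      rw [← h1]
      simp only [Finset.sum_mul, Finset.mul_sum]
      rw [Finset.sum_comm]
      refine Finset.sum_congr rfl fun i _ => Finset.sum_congr rfl fun j _ => ?_
      ring)
  refine ⟨w, q, hw, hq, ?_⟩
  have h3 := h2 ()
  simp only [Finset.sum_mul] at h3
  rw [Finset.sum_comm] at h3
  exact h3

/-- an algebraic kernel vector -/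
theorem zero_of_algebraic {n m : ℕ} (hn : 0 < n) (M : Matrix (Fin n) (Fin m) E)
    (hM : ∀ i j, M i j ∈ Λ) (v : Fin m → E) (hv : v ≠ 0) (hva : ∀ j, IsAlgebraic ℚ (v j))
    (hker : ∀ i, ∑ j, M i j * v j = 0) :
    ∃ (w : Fin n → ℚ) (q : Fin m → ℚ), w ≠ 0 ∧ q ≠ 0 ∧
      ∑ i, ∑ j, (w i : E) * M i j * (q j : E) = 0 := by
  obtain ⟨q, hq, h2⟩ := exists_rat_kernel Λ hB M hM
    (fun j => ⟨v j, mem_algebraicClosure_iff.2 (hva j)⟩) (by
      intro h
      apply hv
      funext j
      exact congrArg (fun z : algebraicClosure ℚ E => (z : E)) (congrFun h j)) hker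
  refine ⟨Pi.single ⟨0, hn⟩ 1, q, ?_, hq, ?_⟩
  · intro h
    have h1 := congrFun h ⟨0, hn⟩
    rw [Pi.single_eq_same, Pi.zero_apply] at h1
    exact one_ne_zero h1
  · refine Finset.sum_eq_zero fun i _ => ?_
    simp only [mul_assoc]
    rw [← Finset.mul_sum, h2 i, mul_zero]

/-- one parameter -/
theorem zero_poly {n m : ℕ} (V : Submodule (algebraicClosure ℚ E) E) (hΛV : ∀ z ∈ Λ, z ∈ V)
    (hH : Hyp V) (M : Matrix (Fin n) (Fin m) E) (hM : ∀ i j, M i j ∈ Λ)
    (K : Type*) [Field K] [NumberField K] (ι : K →+* E) (e : ℕ) (he : 1 ≤ e)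
    (hn : (4 * e - 2) * finrank ℚ K < n) (P : Fin m → K[X]) (hP : ∀ j, (P j).natDegree ≤ e)
    (t : E) (h0 : (fun j => (P j).eval₂ ι t) ≠ 0) (hker : ∀ i, ∑ j, M i j * (P j).eval₂ ι t = 0) :
    ∃ (w : Fin n → ℚ) (q : Fin m → ℚ), w ≠ 0 ∧ q ≠ 0 ∧
      ∑ i, ∑ j, (w i : E) * M i j * (q j : E) = 0 := by
  by_cases ht : IsAlgebraic ℚ t
  · refine zero_of_algebraic Λ hB (by omega) M hM _ h0 ?_ hker
    intro j
    rw [eval₂_eq_sum_range]
    exact mem_algebraicClosure_iff.1 (sum_mem fun i _ => mul_mem (restr ι _).2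
      (pow_mem (mem_algebraicClosure_iff.2 ht) _))
  · have ht' := transcendental_closure ht
    obtain ⟨j0, hj0⟩ : ∃ j, (P j).eval₂ ι t ≠ 0 := by
      by_contra hcon
      push Not at hcon
      exact h0 (funext hcon)
    have hP0 : P j0 ≠ 0 := by
      intro h
      rw [h, eval₂_zero] at hj0
      exact hj0 rfl
    obtain ⟨c, hc⟩ : ∃ c : K, (P j0).eval c ≠ 0 := by
      by_contra hcon
      push Not at hcon
      exact hP0 (Polynomial.funext fun c => by rw [hcon c, eval_zero])
    refine zero_of_rank Λ hB M hM K (restr ι) (fun j => (P j).eval c)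
      (fun h => hc (congrFun h j0)) ?_
    have hev : ∀ j, aeval t ((P j).map (restr ι)) = (P j).eval₂ ι t := by
      intro j
      rw [aeval_def, eval₂_map]
      rfl
    have h1 := poly_rank_le hH M (fun i j => hΛV _ (hM i j)) t ht' e he
      (fun j => (P j).map (restr ι)) (fun j => (natDegree_map_le).trans (hP j)) (by
        intro i
        rw [← hker i]
        refine Finset.sum_congr rfl fun j _ => ?_
        rw [hev]) (restr ι c)
    have h2 : (fun i => ∑ j, ((P j).map (restr ι)).eval (restr ι c) • M i j) =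
        fun i => ∑ j, restr ι ((P j).eval c) • M i j := by
      funext i
      refine Finset.sum_congr rfl fun j _ => ?_
      rw [eval_map_apply]
    rw [h2] at h1
    exact lt_of_le_of_lt (Nat.mul_le_mul_right _ h1) hn

/-- several algebraically independent parameters -/
theorem zero_mvpoly {n m : ℕ} (V : Submodule (algebraicClosure ℚ E) E) (hΛV : ∀ z ∈ Λ, z ∈ V)
    (hH : Hyp V) (M : Matrix (Fin n) (Fin m) E) (hM : ∀ i j, M i j ∈ Λ)
    (K : Type*) [Field K] [NumberField K] (ι : K →+* E) (r e : ℕ) (he : 1 ≤ e)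
    (hn : (2 ^ r * ((2 * e) ^ r - 1)) * finrank ℚ K < n) (P : Fin m → MvPolynomial (Fin r) K)
    (hP : ∀ j i, (P j).degreeOf i ≤ e) (t : Fin r → E) (ht : AlgebraicIndependent ℚ t)
    (h0 : (fun j => (P j).eval₂ ι t) ≠ 0) (hker : ∀ i, ∑ j, M i j * (P j).eval₂ ι t = 0) :
    ∃ (w : Fin n → ℚ) (q : Fin m → ℚ), w ≠ 0 ∧ q ≠ 0 ∧
      ∑ i, ∑ j, (w i : E) * M i j * (q j : E) = 0 := by
  have ht' := algebraicIndependent_closure ht
  obtain ⟨j0, hj0⟩ : ∃ j, (P j).eval₂ ι t ≠ 0 := by
    by_contra hcon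
    push Not at hcon
    exact h0 (funext hcon)
  have hP0 : P j0 ≠ 0 := by
    intro h
    rw [h, MvPolynomial.eval₂_zero] at hj0
    exact hj0 rfl
  obtain ⟨c, hc⟩ : ∃ c : Fin r → K, MvPolynomial.eval c (P j0) ≠ 0 := by
    by_contra hcon
    push Not at hcon
    exact hP0 (MvPolynomial.funext fun c => by rw [hcon c, map_zero])
  refine zero_of_rank Λ hB M hM K (restr ι) (fun j => MvPolynomial.eval c (P j))
    (fun h => hc (congrFun h j0)) ?_
  have hev : ∀ j, MvPolynomial.aeval t ((P j).map (restr ι)) = (P j).eval₂ ι t := by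
    intro j
    rw [MvPolynomial.aeval_def, MvPolynomial.eval₂_map]
    rfl
  have h1 := mvpoly_rank_le hH M (fun i j => hΛV _ (hM i j)) t ht' e he
    (fun j => (P j).map (restr ι))
    (fun j i => MvPolynomial.degreeOf_le_iff.2 fun s hs => MvPolynomial.degreeOf_le_iff.1 (hP j i) s
      (MvPolynomial.support_map_subset _ _ hs)) (by
      intro i
      rw [← hker i]
      refine Finset.sum_congr rfl fun j _ => ?_
      rw [hev]) (fun i => restr ι (c i))
  have h2 : (fun i => ∑ j, MvPolynomial.eval (fun i => restr ι (c i)) ((P j).map (restr ι)) • M i j) =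
      fun i => ∑ j, restr ι (MvPolynomial.eval c (P j)) • M i j := by
    funext i
    refine Finset.sum_congr rfl fun j _ => ?_
    have h5 : restr ι (MvPolynomial.eval c (P j)) =
        (P j).eval₂ (restr ι) (fun i => restr ι (c i)) :=
      MvPolynomial.eval₂_comp_left (restr ι) (RingHom.id K) c (P j)
    rw [MvPolynomial.eval_map, h5]
  rw [h2] at h1
  exact lt_of_le_of_lt (Nat.mul_le_mul_right _ h1) hn

/-- the coordinates in the space generated by `d` numbers -/
theorem zero_span {n m : ℕ} (V : Submodule (algebraicClosure ℚ E) E) (hΛV : ∀ z ∈ Λ, z ∈ V)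
    (hH : Hyp V) (M : Matrix (Fin n) (Fin m) E) (hM : ∀ i j, M i j ∈ Λ)
    (K : Type*) [Field K] [NumberField K] (ι : K →+* E) (d : ℕ)
    (hn : (d * (d - 1)) * finrank ℚ K < n) (a : Fin d → Fin m → K) (x : Fin d → E)
    (hx : LinearIndependent (algebraicClosure ℚ E) x)
    (h0 : (fun j => ∑ l, ι (a l j) * x l) ≠ 0) (hker : ∀ i, ∑ j, M i j * ∑ l, ι (a l j) * x l = 0) :
    ∃ (w : Fin n → ℚ) (q : Fin m → ℚ), w ≠ 0 ∧ q ≠ 0 ∧
      ∑ i, ∑ j, (w i : E) * M i j * (q j : E) = 0 := by
  obtain ⟨j0, hj0⟩ : ∃ j, ∑ l, ι (a l j) * x l ≠ 0 := by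
    by_contra hcon
    push Not at hcon
    exact h0 (funext hcon)
  obtain ⟨l0, hl0⟩ : ∃ l, a l j0 ≠ 0 := by
    by_contra hcon
    push Not at hcon
    apply hj0
    refine Finset.sum_eq_zero fun l _ => ?_
    rw [hcon l, map_zero, zero_mul]
  refine zero_of_rank Λ hB M hM K (restr ι) (a l0) (fun h => hl0 (congrFun h j0)) ?_
  have h1 := span_rank_le hH M (fun i j => hΛV _ (hM i j)) x hx (fun l j => restr ι (a l j)) (by
    intro i
    rw [← hker i]
    refine Finset.sum_congr rfl fun j _ => ?_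
    congr 1) l0
  exact lt_of_le_of_lt (Nat.mul_le_mul_right _ h1) hn

/-- `ℚ`-dimensions of subspaces of `Λ` -/
theorem finrank_rat_le {κ : Type*} [Finite κ] (f : κ → E) (hf : ∀ i, f i ∈ Λ) :
    finrank ℚ (Submodule.span ℚ (Set.range f)) ≤
      finrank (algebraicClosure ℚ E) (Submodule.span (algebraicClosure ℚ E) (Set.range f)) := by
  obtain ⟨κ', s, hs, hspan, hli⟩ := exists_linearIndependent' ℚ f
  have : Finite κ' := Finite.of_injective s hs
  have : Fintype κ' := Fintype.ofFinite κ'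
  have hfin : FiniteDimensional (algebraicClosure ℚ E)
      (Submodule.span (algebraicClosure ℚ E) (Set.range f)) :=
    FiniteDimensional.span_of_finite _ (Set.finite_range _)
  rw [← hspan, finrank_span_eq_card hli]
  let e := (Fintype.equivFin κ').symm
  have h1 := hB (Fintype.card κ') ((f ∘ s) ∘ e) (fun k => hf _) (hli.comp e e.injective)
  have h2 := finrank_span_eq_card h1
  rw [Fintype.card_fin] at h2
  rw [← h2]
  apply Submodule.finrank_mono
  apply Submodule.span_mono
  rintro _ ⟨a, rfl⟩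
  exact ⟨_, rfl⟩

end zero

end Pool.Agent.E8helper37.KS
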